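import Mathlib

/-! If equality of coded open sets is Borel then it is `G_δ`. -/

namespace Pool.Agent.Results.MP_e9e8de_lc.Pi2

open Set Filter Topology TopologicalSpace

theorem cpt {Y : Type} [TopologicalSpace Y] {x : Y} {V L : ℕ → Set Y}
    (hV : (𝓝 x).HasAntitoneBasis V) (h1 : ∀ k, IsCompact (L k)) (h2 : ∀ k, L k ⊆ V k) :
    IsCompact (insert x (⋃ k, L k)) := by
  refine isCompact_iff_ultrafilter_le_nhds'.2 fun F hF => ?_
  by_cases h : ∃ k, L k ∈ F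
  · obtain ⟨k, h⟩ := h
    obtain ⟨y, y1, y2⟩ := isCompact_iff_ultrafilter_le_nhds'.1 (h1 k) F h
    exact ⟨y, Or.inr (mem_iUnion.2 ⟨k, y1⟩), y2⟩
  · refine ⟨x, Or.inl rfl, hV.1.ge_iff.2 fun k _ => ?_⟩
    have : ⋂ j ∈ Finset.range k, (L j)ᶜ ∈ F := (biInter_finset_mem _).2 fun j _ =>
      Ultrafilter.compl_mem_iff_notMem.2 fun k => h ⟨j, k⟩
    filter_upwards [this, hF] with y y1 y2
    rcases y2 with rfl | ⟨_, ⟨j, rfl⟩, y2⟩
    · exact mem_of_mem_nhds (hV.mem k)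
    · by_cases hj : j < k
      · exact (mem_iInter₂.1 y1 j (Finset.mem_range.2 hj) y2).elim
      · exact hV.2 (not_lt.1 hj) (h2 j y2)

theorem chr {Y : Type} [TopologicalSpace Y] [MetrizableSpace Y] {B : Set Y}
    {R : Set (Y × (ℕ → ℕ))} (hR : IsClosed R) (h1 : ∀ x ρ, (x, ρ) ∈ R → x ∈ B)
    (h2 : ∀ L ⊆ B, IsCompact L → ∃ ρ, ∀ x ∈ L, (x, ρ) ∈ R) : IsGδ B := by
  let O : List ℕ → Set Y := fun s => {y | ∃ V ∈ 𝓝 y, ∀ L ⊆ V ∩ B, IsCompact L →
    ∃ ρ, (List.range s.length).map ρ = s ∧ ∀ x ∈ L, (x, ρ) ∈ R}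
  have o : ∀ s, IsOpen (O s) := fun s => isOpen_iff_mem_nhds.2 fun y ⟨V, h, k⟩ =>
    (eventually_mem_nhds_iff.2 h).mono fun z hz => ⟨V, hz, k⟩
  have : B = closure B ∩ ⋂ s, (O s)ᶜ ∪ ⋃ k, O (s ++ [k]) := by
    refine Subset.antisymm (fun x hx => ⟨subset_closure hx, mem_iInter.2 fun s =>
      or_iff_not_imp_left.2 fun h => ?_⟩) fun y ⟨y1, y2⟩ => ?_
    · obtain ⟨W, w1, w2⟩ := not_not.1 h
      obtain ⟨V, hV⟩ := (𝓝 x).exists_antitone_basis
      by_contra hn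
      simp only [mem_iUnion, O, mem_setOf_eq, not_exists, not_and, not_forall] at hn
      choose L l1 l2 l3 using fun k => hn k _ (inter_mem (hV.mem k) w1)
      obtain ⟨ρ, r1, r2⟩ := w2 _ (insert_subset ⟨mem_of_mem_nhds w1, hx⟩ (iUnion_subset fun k z hz =>
        ⟨(l1 k hz).1.2, (l1 k hz).2⟩)) (cpt hV l2 fun k z hz => (l1 k hz).1.1)
      obtain ⟨z, z1, z2⟩ := l3 (ρ s.length) ρ (by simp [List.range_succ, r1])
      exact z2 (r2 z (Or.inr (mem_iUnion.2 ⟨_, z1⟩)))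
    · choose! g hg using fun s (h : y ∈ O s) =>
        mem_iUnion.1 ((mem_iInter.1 y2 s).resolve_left (not_not.2 h))
      let s : ℕ → List ℕ := fun n => (fun s => s ++ [g s])^[n] []
      have s1 : ∀ n, s (n + 1) = s n ++ [g (s n)] := fun n => Function.iterate_succ_apply' _ _ _
      have s2 : ∀ n, y ∈ O (s n) ∧ s n = (List.range n).map fun i => g (s i) := fun n => by
        induction n with
        | zero => exact ⟨⟨univ, univ_mem, fun L h k => (h2 L (fun _ x => (h x).2) k).imp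
            fun _ h => ⟨rfl, h⟩⟩, rfl⟩
        | succ n ih => exact ⟨s1 n ▸ hg _ ih.1, by
            rw [s1, List.range_succ, List.map_append, ← ih.2]; rfl⟩
      refine h1 y (fun i => g (s i)) (hR.closure_subset (mem_closure_iff_nhds.2 fun W hW => ?_))
      obtain ⟨W1, w1, W2, w2, w3⟩ := mem_nhds_prod_iff.1 hW
      obtain ⟨n, hn⟩ : ∃ n, ∀ ρ : ℕ → ℕ, (∀ i < n, ρ i = g (s i)) → ρ ∈ W2 := by
        rw [nhds_pi, Filter.mem_pi] at w2
        obtain ⟨I, i1, t, t1, t2⟩ := w2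
        obtain ⟨n, hn⟩ := i1.bddAbove
        exact ⟨n + 1, fun ρ h => t2 fun i hi => h i (Nat.lt_succ_of_le (hn hi)) ▸
          mem_of_mem_nhds (t1 i)⟩
      obtain ⟨V, v1, v2⟩ := (s2 n).1
      obtain ⟨x, x1, x2⟩ := mem_closure_iff_nhds.1 y1 _ (inter_mem v1 w1)
      obtain ⟨ρ, r1, r2⟩ := v2 {x} (singleton_subset_iff.2 ⟨x1.1, x2⟩) isCompact_singleton
      rw [(s2 n).2] at r1
      simp only [List.length_map, List.length_range, List.map_inj_left, List.mem_range] at r1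
      exact ⟨(x, ρ), w3 ⟨x1.2, hn ρ r1⟩, r2 x rfl⟩
  rw [this]
  exact isClosed_closure.isGδ.inter (.iInter fun s => (o s).isClosed_compl.isGδ.union
    (isOpen_iUnion fun k => o _).isGδ)

theorem cov {X : Type*} [TopologicalSpace X] {U : ℕ → Set X} (hU : IsTopologicalBasis (range U))
    (W : Set X) (h : MeasureTheory.AnalyticSet {y : ℕ → ℕ | W ⊆ ⋃ n, U (y n)}) :
    IsGδ {y : ℕ → ℕ | W ⊆ ⋃ n, U (y n)} := by
  classical
  rcases W.eq_empty_or_nonempty with rfl | ⟨p0, hp0⟩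
  · simpa using IsGδ.univ
  rw [MeasureTheory.AnalyticSet] at h
  rcases h with h | ⟨f, f1, f2⟩
  · rw [h]; exact .empty
  refine chr (R := ⋂ j, ⋂ q : ℕ × ℕ, {x | ((x.2 j).unpair.2, f (fun n => (x.2 n).unpair.1) j) ≠ q} ∪
    ⋃ i ∈ Finset.range q.1, {x | U q.2 ⊆ U (x.1 i)}) (isClosed_iInter fun j => isClosed_iInter
    fun q => .union ((isClosed_discrete {a | a ≠ q}).preimage (by fun_prop))
    (isClosed_biUnion_finset fun i _ => (isClosed_discrete {a | U q.2 ⊆ U a}).preimage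
    (by fun_prop))) (fun x ρ h p hp => ?_) fun L l1 l2 => ?_
  · obtain ⟨j, hj⟩ := mem_iUnion.1 ((f2.subset (mem_range_self fun n => (ρ n).unpair.1)) hp)
    obtain ⟨i, -, hi⟩ := mem_iUnion₂.1 ((mem_iInter₂.1 h j _).resolve_left fun h => h rfl)
    exact mem_iUnion.2 ⟨i, hi hj⟩
  · have key : ∀ p ∈ W, ∃ c, p ∈ U c ∧ ∃ m, ∀ x ∈ L, ∃ i < m, U c ⊆ U (x i) := fun p hp => by
      obtain ⟨t, ht⟩ := l2.elim_finite_subcover (fun q : ℕ × ℕ => {x | x q.1 = q.2 ∧ p ∈ U q.2})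
        (fun q => (isOpen_discrete {a | a = q.2 ∧ p ∈ U q.2}).preimage
          (f := fun x : ℕ → ℕ => x q.1) (continuous_apply q.1))
        fun x hx => (mem_iUnion.1 (l1 hx hp)).elim fun i hi => mem_iUnion.2 ⟨(i, x i), rfl, hi⟩
      obtain ⟨_, ⟨c, rfl⟩, c1, c2⟩ := hU.mem_nhds_iff.1 ((biInter_finset_mem
        (t.filter fun q => p ∈ U q.2)).2 fun q hq => hU.mem_nhds ⟨q.2, rfl⟩ (Finset.mem_filter.1 hq).2)
      refine ⟨c, c1, t.sup Prod.fst + 1, fun x hx => ?_⟩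
      obtain ⟨q, q1, q2, q3⟩ := mem_iUnion₂.1 (ht hx)
      exact ⟨q.1, Nat.lt_succ_of_le (Finset.le_sup q1), q2 ▸ fun z hz =>
        mem_iInter₂.1 (c2 hz) q (Finset.mem_filter.2 ⟨q1, q3⟩)⟩
    obtain ⟨z, hz⟩ := (to_countable {c | ∃ m, ∀ x ∈ L, ∃ i < m, U c ⊆ U (x i)}).exists_eq_range
      ((key p0 hp0).imp fun _ h => h.2)
    obtain ⟨τ, rfl⟩ := f2.superset (show z ∈ _ from fun p hp => by
      obtain ⟨c, c1, c2⟩ := key p hp
      obtain ⟨j, rfl⟩ := hz.subset c2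
      exact mem_iUnion.2 ⟨j, c1⟩)
    choose m hm using fun j => hz.superset (mem_range_self j)
    refine ⟨fun n => Nat.pair (τ n) (m n), fun x hx => mem_iInter₂.2 fun j q =>
      or_iff_not_imp_left.2 fun h => ?_⟩
    obtain rfl : (m j, f τ j) = q := by simpa using h
    simpa using hm j x hx

theorem result {X : Type*} [TopologicalSpace X] (U : ℕ → Set X)
    (hU : IsTopologicalBasis (range U))
    (h : @MeasurableSet _ (borel _)
      {p : (ℕ → ℕ) × (ℕ → ℕ) | ⋃ n, U (p.1 n) = ⋃ n, U (p.2 n)}) :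
    IsGδ {p : (ℕ → ℕ) × (ℕ → ℕ) | ⋃ n, U (p.1 n) = ⋃ n, U (p.2 n)} := by
  rw [← BorelSpace.measurable_eq] at h
  have c : ∀ a, IsGδ {y : ℕ → ℕ | U a ⊆ ⋃ n, U (y n)} := fun a => cov hU _ (by
    have m : Measurable fun y : ℕ → ℕ => ((fun n => Nat.casesOn n a y : ℕ → ℕ), y) :=
      (measurable_pi_lambda _ fun n => by cases n <;> fun_prop).prodMk measurable_id
    convert (m h).analyticSet using 1
    ext y
    simp only [mem_setOf_eq, mem_preimage]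
    rw [← union_iUnion_nat_succ fun n => U (Nat.rec a (fun n _ => y n) n)]
    exact union_eq_right.symm)
  have d : IsGδ {p : (ℕ → ℕ) × (ℕ → ℕ) | ⋃ n, U (p.1 n) ⊆ ⋃ n, U (p.2 n)} := by
    convert IsGδ.iInter fun q : ℕ × ℕ => ((isOpen_discrete {a | a ≠ q.2}).preimage
      (f := fun p : (ℕ → ℕ) × (ℕ → ℕ) => p.1 q.1) (by fun_prop)).isGδ.union
      ((c q.2).preimage continuous_snd)
    ext p
    simp [or_iff_not_imp_left]
  simp only [Subset.antisymm_iff]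
  exact d.inter (d.preimage continuous_swap)

end Pool.Agent.Results.MP_e9e8de_lc.Pi2
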